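import Pool.Agent.MP_d99b12_co.H25.Final

namespace Pool.Agent.Results.MP_d99b12_co.GF8

/-- The `4`-connected matroids have boundedly many inequivalent representations over `GF(8)`. -/
theorem result : ∃ h : ℕ,
    ∀ (F : Type) [Field F] [Fintype F], Fintype.card F = 8 →
    ∀ (α : Type) [Finite α] (M : Matroid α),
      (∀ j : ℕ, j < 4 → ∀ X ⊆ M.E, j ≤ X.ncard → j ≤ (M.E \ X).ncard →
        M.eRank + (j : ℕ∞) ≤ M.eRk X + M.eRk (M.E \ X)) →
      ∀ n : ℕ, ∀ v : Fin (h + 1) → α → (Fin n → F),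
        (∀ i, ∀ I ⊆ M.E, (M.Indep I ↔ LinearIndepOn F (v i) I)) →
        ∃ i j : Fin (h + 1), i ≠ j ∧
          ∃ φ : (Fin n → F) ≃ₗ[F] (Fin n → F),
          ∃ c : α → Fˣ, ∃ σ : F ≃+* F,
            ∀ e ∈ M.E, v j e = φ (fun t => (c e : F) * σ (v i e t)) :=
  Pool.Agent.MP_d99b12_co.H25.final 2 Nat.prime_two 3 (Or.inr ⟨rfl, rfl⟩)

end Pool.Agent.Results.MP_d99b12_co.GF8
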