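import Pool.Agent.MP_d99b12_co.H30.Main

namespace Pool.Agent.Results.MP_d99b12_co.SingleElement

open Pool.Agent.MP_d99b12_co.H30

/-- In an `(m + 2)`-connected matroid `M`, every representation of `M \ e` or of `M / e` over
`GF(p ^ k)` is induced by at most `h (p, k)` inequivalent representations of `M`. -/
theorem result : ∀ p : ℕ, p.Prime → ∀ k : ℕ, 1 < k → ∃ h : ℕ,
    ∀ (F : Type) [Field F] [Fintype F], Fintype.card F = p ^ k →
    ∀ (α : Type) [Finite α] (M : Matroid α),
      TutteConnected M ((if p = 2 then k - 1 else (k - 1) * (p - 1) + 1) + 2) →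
      ∀ e ∈ M.E, ∀ (n : ℕ) (u : α → Fin n → F) (v : Fin (h + 1) → α → Fin n → F)
        (π : Fin (h + 1) → (Fin n → F) →ₗ[F] (Fin n → F)),
        (∀ i, Rep M (v i)) → (∀ i, LinearMap.ker (π i) ≤ Submodule.span F {v i e}) →
        (∀ i, Equivalent (M.E \ {e}) u fun b => π i (v i b)) →
        ∃ i j, i ≠ j ∧ Equivalent M.E (v i) (v j) :=
  single_element

end Pool.Agent.Results.MP_d99b12_co.SingleElement
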